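import Pool.Agent.SAIL.FAC.Main
import Pool.Agent.SAIL.HAT.Main

/-!
# Triangular faces of two-dimensional sails are more frequent than quadrangular ones

Arnold's question for the continued fractions (in the sense of Klein) of the integer matrices
with rational distinct eigenvalues: alternative (i) holds.  There are asymptotically more
triangular than quadrangular faces, by a definite factor:
`T(m) ≥ 1.003 Q(m)` and `Q(m) > 0` for all large `m`, so `liminf T(m) / Q(m) > 1`.
-/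

open Filter

namespace Pool.Agent.Results.MP_4b8749_nt.TrianglesOutnumber

/-- The integer points of `R^3`. -/
def IntPoints : Set (Fin 3 → ℝ) := {x | ∃ z : Fin 3 → ℤ, x = fun i => (z i : ℝ)}

/-- The convex hull of the nonzero integer points of the closure of a cone `C`.
The boundary of this set is the sail of `C`. -/
def Hull (C : Set (Fin 3 → ℝ)) : Set (Fin 3 → ℝ) :=
  convexHull ℝ {x | x ∈ closure C ∧ x ∈ IntPoints ∧ x ≠ 0}

/-- `F` is a bounded two-dimensional face of the sail of `C`: an exposed face of the hull,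
bounded, whose affine span has dimension two. -/
def IsBoundedFace (C F : Set (Fin 3 → ℝ)) : Prop :=
  IsExposed ℝ (Hull C) F ∧ Bornology.IsBounded F ∧ Module.finrank ℝ (vectorSpan ℝ F) = 2

/-- `C` is one of the open simplicial cones spanned by eigenvectors of `A` for three distinct
eigenvalues.  If `A` has three distinct real eigenvalues, these are exactly the eight open cones
into which the three planes spanned by pairs of eigenlines cut `R^3`. -/
def IsEigenCone (A : Matrix (Fin 3) (Fin 3) ℤ) (C : Set (Fin 3 → ℝ)) : Prop :=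
  ∃ (v : Fin 3 → Fin 3 → ℝ) (l : Fin 3 → ℝ), Function.Injective l ∧
    (∀ i, v i ≠ 0 ∧ (A.map fun z : ℤ => (z : ℝ)).mulVec (v i) = l i • v i) ∧
    C = {x | ∃ t : Fin 3 → ℝ, (∀ i, 0 < t i) ∧ x = ∑ i, t i • v i}

/-- The set `A_3(m)`: the integer matrices with three distinct rational eigenvalues and with
entries whose absolute values sum to at most `m`. -/
def A3 (m : ℕ) : Set (Matrix (Fin 3) (Fin 3) ℤ) :=
  {A | (∃ a b c : ℚ, a ≠ b ∧ b ≠ c ∧ a ≠ c ∧
    (A.map fun z : ℤ => (z : ℚ)).charpoly =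
      (Polynomial.X - Polynomial.C a) * (Polynomial.X - Polynomial.C b) *
        (Polynomial.X - Polynomial.C c)) ∧
    ∑ i, ∑ j, |A i j| ≤ (m : ℤ)}

/-- The bounded two-dimensional faces with exactly `k` vertices of the sails of all the cones of
the continued fractions of all the matrices of `A_3(m)`: the triples matrix, cone, face. -/
def Faces (m k : ℕ) : Set (Matrix (Fin 3) (Fin 3) ℤ × Set (Fin 3 → ℝ) × Set (Fin 3 → ℝ)) :=
  {p | p.1 ∈ A3 m ∧ IsEigenCone p.1 p.2.1 ∧ IsBoundedFace p.2.1 p.2.2 ∧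
    (Set.extremePoints ℝ p.2.2).ncard = k}

/-- The total number of triangular faces. -/
noncomputable def T (m : ℕ) : ℕ := (Faces m 3).ncard

/-- The total number of quadrangular faces. -/
noncomputable def Q (m : ℕ) : ℕ := (Faces m 4).ncard

/-- The volume inequality for the quadrangles, from the files of the folder `SAIL`. -/
theorem hq : SAIL.F.tHQ (2 / 25) :=
  SAIL.Q.p_HQ1 SAIL.Q.p_HC SAIL.Q.p_HK
    (SAIL.Q.p_H1 SAIL.Q.p_H1a (SAIL.Q.p_H1e SAIL.Q.p_H1b SAIL.Q.p_H1c SAIL.Q.p_H1d))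
    (SAIL.Q.p_H2 SAIL.Q.p_H2a (SAIL.Q.p_H2b SAIL.Q.p_H2n) SAIL.Q.p_H2c SAIL.Q.p_H2n)
    SAIL.Q.p_H3

/-- Alternative (i): the faces are finite in number; for all large `m` one has `Q(m) > 0` and
`T(m) ≥ 1.003 Q(m)`; and the lower limit of `T(m) / Q(m)` over the `m` with `Q(m) > 0` is
larger than `1`. -/
theorem result :
    (∀ m k : ℕ, (Faces m k).Finite) ∧
    (∃ m₀ : ℕ, ∀ m : ℕ, m₀ ≤ m → 0 < Q m ∧ (1003 / 1000 : ℝ) * (Q m : ℝ) ≤ (T m : ℝ)) ∧
    1 < liminf (fun m : ℕ => (T m : ENNReal) / (Q m : ENNReal))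
      (atTop ⊓ 𝓟 {m : ℕ | 0 < Q m}) := by
  obtain ⟨hf, m₀, h⟩ := SAIL.FACM.fANS (x := 2 / 25) (y := 803 / 10000) (c := 1003 / 1000)
    (by norm_num) (by norm_num) (by norm_num) hq SAIL.H.fHT
  have hT : ∀ m, T m = (SAIL.F.Trip m 3).ncard := fun m => rfl
  have hQ : ∀ m, Q m = (SAIL.F.Trip m 4).ncard := fun m => rfl
  have h' : ∀ m : ℕ, ⌈m₀⌉₊ ≤ m →
      0 < Q m ∧ (1003 / 1000 : ℝ) * (Q m : ℝ) ≤ (T m : ℝ) := by
    intro m hm
    rw [hT, hQ]
    exact h m ((Nat.le_ceil m₀).trans (by exact_mod_cast hm))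
  refine ⟨hf, ⟨⌈m₀⌉₊, h'⟩, ?_⟩
  have h1 : (1 : ENNReal) < ENNReal.ofReal (1003 / 1000) := by
    rw [← ENNReal.ofReal_one]
    exact (ENNReal.ofReal_lt_ofReal_iff (by norm_num)).mpr (by norm_num)
  refine lt_of_lt_of_le h1 ?_
  refine le_liminf_of_le (by isBoundedDefault) ?_
  rw [eventually_inf_principal]
  filter_upwards [eventually_ge_atTop ⌈m₀⌉₊] with m hm _
  obtain ⟨h2, h3⟩ := h' m hm
  rw [ENNReal.le_div_iff_mul_le (Or.inl (by exact_mod_cast h2.ne'))
    (Or.inl (ENNReal.natCast_ne_top _))]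
  have e1 : ENNReal.ofReal (1003 / 1000) * (Q m : ENNReal) =
      ENNReal.ofReal (1003 / 1000 * (Q m : ℝ)) := by
    rw [ENNReal.ofReal_mul (by norm_num), ENNReal.ofReal_natCast]
  have e2 : (T m : ENNReal) = ENNReal.ofReal (T m : ℝ) := by rw [ENNReal.ofReal_natCast]
  rw [e1, e2]
  exact ENNReal.ofReal_le_ofReal h3

end Pool.Agent.Results.MP_4b8749_nt.TrianglesOutnumber
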